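import Pool.Agent.Lib.MP_dd4ef3_lc.Basic

set_option autoImplicit false

namespace Pool.Agent.Results.MP_dd4ef3_lc.LocalTwoColourings

open Pool.Agent.PCHam

/-- Let the edges of `K_n` be coloured so that every vertex meets at most two colours while at
least three colours occur.  Then there is a properly coloured Hamilton cycle if and only if there
is a properly coloured cycle factor. -/
theorem result :
    ∀ (n : ℕ) (C : Type) (col : Sym2 (Fin n) → C),
      IsLocalTwoColouring col → UsesThreeColours col →
        (HasPCHamiltonCycle col ↔ HasPCCycleFactor col) := by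
  intro n C col hl h3
  exact ⟨fun ⟨σ, hσ, _⟩ => ⟨σ, hσ⟩, hamilton_of_factor hl h3⟩

end Pool.Agent.Results.MP_dd4ef3_lc.LocalTwoColourings
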